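import Pool.Agent.H31.MKS.Targets
import Pool.Agent.H91.LF.Basic

/-!
# Row DCS of the board mks_modules: the finite form of the decoupling for the net
-/

set_option autoImplicit false

open Finset Filter Topology

namespace Pool.Agent.H31.MKS

open Pool.Agent.H91.LF
open Pool.Agent.H31.DP
open Pool.Agent.H31.DPD (sI IC mulc Oc)
open Pool.Agent.H24.T2 (Pset)
open Pool.Agent.H28.GS

theorem dcs_abs_FF_le {l : ℕ} (h : Fin l → ℕ) (p : ℕ) (y : ℤ) : |FF h p y| ≤ 1 := by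
  unfold FF
  rw [Finset.abs_prod]
  exact Finset.prod_le_one (fun _ _ => abs_nonneg _) (fun _ _ => abs_lz_le _)

theorem dcs_abs_vt_le {l : ℕ} (h : Fin l → ℕ) (W : ℕ) (φ : ℤ → ℤ → ℝ) (hφ : ∀ s j, |φ s j| ≤ 1)
    (p : ℕ) (y j : ℤ) : |vt h W φ p y j| ≤ 1 := by
  unfold vt
  rw [abs_div, abs_two, div_le_one (by norm_num)]
  have h1 := abs_sub (FF h p y) (φ (y % (W : ℤ)) j)
  have h2 := dcs_abs_FF_le h p y
  have h3 := hφ (y % (W : ℤ)) j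
  linarith

theorem dcs_ind_le (P : Prop) : |ind P| ≤ 1 := by
  unfold ind
  split_ifs <;> simp

theorem dcs_bdd_bal {Ω : Type*} (p : ℕ) (φ : Ω → ℤ) : Bdd (fun ω => bal p (φ ω)) := by
  refine ⟨(p : ℝ) + 1, fun ω => ?_⟩
  unfold bal
  have h1 := dcs_ind_le ((p : ℤ) ∣ φ ω)
  have hp : (0 : ℝ) ≤ p := Nat.cast_nonneg p
  have h2 : |(p : ℝ) * ind ((p : ℤ) ∣ φ ω)| ≤ p := by
    rw [abs_mul, abs_of_nonneg hp]
    exact mul_le_of_le_one_right hp h1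
  have h3 := abs_sub ((p : ℝ) * ind ((p : ℤ) ∣ φ ω)) 1
  rw [abs_one] at h3
  linarith

theorem dcs_bdd_dcj {l d J : ℕ} (h : Fin l → ℕ) (W : ℕ) (φ : ℤ → ℤ → ℝ)
    (hφ : ∀ s j, |φ s j| ≤ 1) (κ : Ix d J) (p : ℕ) : Bdd (dcj h W φ κ p) := by
  have h1 : Bdd (fun ω : Fin (d + 2) → ℤ => (p : ℝ) ^ d * ind (∀ i : Fin d, (p : ℤ) ∣ par ω i)) :=
    bdd_mul (bdd_const _) ⟨1, fun ω => dcs_ind_le _⟩
  have h2 : Bdd (fun ω : Fin (d + 2) → ℤ => bal p (ω 0) * bal p (ω 1)) :=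
    bdd_mul (dcs_bdd_bal p _) (dcs_bdd_bal p _)
  have h3 : Bdd (gj h W φ κ p) := by
    refine ⟨1, fun ω => ?_⟩
    unfold gj
    rw [abs_mul, Finset.abs_prod, Finset.abs_prod]
    have e1 : ∏ I : Finset (Fin d), |vt h W φ p (ω 0 + sI (par ω) I) ((κ (I, 0) : ℕ) : ℤ)| ≤ 1 :=
      Finset.prod_le_one (fun _ _ => abs_nonneg _) (fun _ _ => dcs_abs_vt_le h W φ hφ p _ _)
    have e2 : ∏ I : Finset (Fin d), |vt h W φ p (ω 1 + sI (par ω) I) ((κ (I, 1) : ℕ) : ℤ)| ≤ 1 :=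
      Finset.prod_le_one (fun _ _ => abs_nonneg _) (fun _ _ => dcs_abs_vt_le h W φ hφ p _ _)
    exact mul_le_one₀ e1 (Finset.prod_nonneg fun _ _ => abs_nonneg _) e2
  exact bdd_mul h1 (bdd_mul h2 h3)

theorem dcs_congr {l d J : ℕ} (h : Fin l → ℕ) (W : ℕ) (hW : 0 < W) (φ φ' : ℤ → ℤ → ℝ)
    (hφ : ∀ (a : Fin W) (b : Fin (J + 1)), φ ((a : ℕ) : ℤ) ((b : ℕ) : ℤ) =
      φ' ((a : ℕ) : ℤ) ((b : ℕ) : ℤ)) (κ : Ix d J) (p : ℕ) :
    dcj h W φ κ p = dcj h W φ' κ p := by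
  have hv : ∀ (y : ℤ) (b : Fin (J + 1)), vt h W φ p y ((b : ℕ) : ℤ) =
      vt h W φ' p y ((b : ℕ) : ℤ) := by
    intro y b
    unfold vt
    have hW' : (0 : ℤ) < W := by exact_mod_cast hW
    have h1 : 0 ≤ y % (W : ℤ) := Int.emod_nonneg _ hW'.ne'
    have h2 : y % (W : ℤ) < W := Int.emod_lt_of_pos _ hW'
    have h3 : (y % (W : ℤ)).toNat < W := by omega
    have h4 := hφ ⟨(y % (W : ℤ)).toNat, h3⟩ b
    have h5 : (((y % (W : ℤ)).toNat : ℕ) : ℤ) = y % (W : ℤ) := Int.toNat_of_nonneg h1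
    simp only [h5] at h4
    rw [h4]
  funext ω
  unfold dcj gj
  simp only [hv]

theorem pf_DCS (hMDS : K_MDS) (hUMS : K_UMS) : K_DCS := by
  classical
  obtain ⟨c₀, hc₀, hMD⟩ := hMDS
  refine ⟨c₀, hc₀, ?_⟩
  intro d l h W J L θ m₀ hW hL hθ
  by_contra hcon
  push Not at hcon
  choose X Y hX hXY hbad using fun j : ℕ => hcon (j + m₀ + 1) (j + 1)
  have htend : Tendsto (fun j => Real.log ((Y j : ℝ) / X j)) atTop atTop := by
    refine Real.tendsto_log_atTop.comp ?_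
    refine tendsto_atTop_mono (fun j => ?_) tendsto_natCast_atTop_atTop
    have hxR : (0 : ℝ) < X j := by exact_mod_cast hX j
    rw [le_div_iff₀ hxR]
    have h1 : (((j + 1) * X j : ℕ) : ℝ) ≤ (Y j : ℝ) := by exact_mod_cast hXY j
    push_cast at h1
    nlinarith
  obtain ⟨U, μ, M, hU, hμ, hlim⟩ := hUMS d J X Y hX htend
  set n : ℝ := ((Fintype.card (Ix d J) : ℕ) : ℝ) with hn
  have hn0 : 0 < n := by
    rw [hn]
    exact_mod_cast Fintype.card_pos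
  set θ₁ : ℝ := θ / (2 * n * 3 ^ (d + 2)) with hθ₁
  have hθ₁0 : 0 < θ₁ := by positivity
  obtain ⟨m, hm, hcard, hsum⟩ := hMD d l h W J M θ₁ (max m₀ 1) hW hθ₁0
  have hm1 : 1 ≤ m := (le_max_right _ _).trans hm
  have hmR : (0 : ℝ) < m := by exact_mod_cast hm1
  have hc : (0 : ℝ) < ((Pset 1 m).card : ℝ) := lt_of_lt_of_le (by positivity) hcard
  -- a function of the net for every j
  have hex : ∀ j : ℕ, ∃ φ : ℤ → ℤ → ℝ, NetF L φ ∧ (m ≤ j →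
      θ * (Pset 1 m).card <
        ∑ p ∈ Pset 1 m, ∑ κ : Ix d J, avR d J κ (X j) (Y j) (dcj h W φ κ p)) := by
    intro j
    by_cases hj : m ≤ j
    · obtain ⟨φ, h1, h2⟩ := hbad j m ((le_max_left _ _).trans hm) (by omega) hcard
      exact ⟨φ, h1, fun _ => h2⟩
    · exact ⟨fun _ _ => 0, fun _ _ => ⟨0, by simp, by simp⟩, fun h1 => absurd h1 hj⟩
  choose Φ hΦ1 hΦ2 using hex
  have hex2 : ∀ (j : ℕ) (r s : ℤ), ∃ k : ℤ, |k| ≤ (L : ℤ) ∧ Φ j r s = (k : ℝ) / L :=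
    fun j r s => hΦ1 j r s
  choose k hk1 hk2 using hex2
  let data : ℕ → (Fin W → Fin (J + 1) → {z : ℤ // z ∈ Finset.Icc (-(L : ℤ)) (L : ℤ)}) :=
    fun j a b => ⟨k j ((a : ℕ) : ℤ) ((b : ℕ) : ℤ), Finset.mem_Icc.mpr (abs_le.mp (hk1 j _ _))⟩
  have hdata : ∃ c, ∀ᶠ j in (U : Filter ℕ), data j = c := by
    by_contra hno
    push Not at hno
    have h1 : ∀ c, ∀ᶠ j in (U : Filter ℕ), data j ≠ c := fun c => hno c
    have h2 : ∀ᶠ j in (U : Filter ℕ), ∀ c, data j ≠ c := Filter.eventually_all.mpr h1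
    obtain ⟨j, hj⟩ := h2.exists
    exact hj (data j) rfl
  obtain ⟨c, hc1⟩ := hdata
  obtain ⟨j₀, hj₀⟩ := hc1.exists
  set φ : ℤ → ℤ → ℝ := Φ j₀ with hφ
  have hφ1 : ∀ s j, |φ s j| ≤ 1 := by
    intro s j
    rw [hφ, hk2 j₀ s j, abs_div]
    have hL' : (0 : ℝ) < L := by exact_mod_cast hL
    rw [abs_of_pos hL', div_le_one hL']
    have := hk1 j₀ s j
    exact_mod_cast this
  have hsame : ∀ j, data j = c → ∀ (κ : Ix d J) (p : ℕ), dcj h W (Φ j) κ p = dcj h W φ κ p := by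
    intro j hj κ p
    refine dcs_congr h W hW _ _ (fun a b => ?_) κ p
    have h1 : data j a b = data j₀ a b := by rw [hj, hj₀]
    have h2 : k j ((a : ℕ) : ℤ) ((b : ℕ) : ℤ) = k j₀ ((a : ℕ) : ℤ) ((b : ℕ) : ℤ) :=
      congrArg Subtype.val h1
    rw [hφ, hk2 j, hk2 j₀, h2]
  have hbd : ∀ (κ : Ix d J) (p : ℕ), Bdd (dcj h W φ κ p) := fun κ p => dcs_bdd_dcj h W φ hφ1 κ p
  have hlim2 : Tendsto (fun j => ∑ p ∈ Pset 1 m, ∑ κ : Ix d J,
      avR d J κ (X j) (Y j) (dcj h W φ κ p)) (U : Filter ℕ)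
      (𝓝 (∑ p ∈ Pset 1 m, ∑ κ : Ix d J, μ κ * (M κ).E (dcj h W φ κ p))) :=
    tendsto_finsetSum _ fun p _ => tendsto_finsetSum _ fun κ _ => hlim κ _ (hbd κ p)
  have h1 : θ * (Pset 1 m).card ≤
      ∑ p ∈ Pset 1 m, ∑ κ : Ix d J, μ κ * (M κ).E (dcj h W φ κ p) := by
    refine ge_of_tendsto hlim2 ?_
    have h2 : ∀ᶠ j in (U : Filter ℕ), m ≤ j := hU (eventually_ge_atTop m)
    filter_upwards [hc1, h2] with j hj1 hj2
    have h3 := (hΦ2 j hj2).le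
    refine le_trans h3 (le_of_eq ?_)
    refine Finset.sum_congr rfl fun p _ => Finset.sum_congr rfl fun κ _ => ?_
    rw [hsame j hj1 κ p]
  have h2 : ∑ p ∈ Pset 1 m, ∑ κ : Ix d J, μ κ * (M κ).E (dcj h W φ κ p) ≤
      θ / 2 * (Pset 1 m).card := by
    rw [Finset.sum_comm]
    have h3 : ∀ κ : Ix d J, ∑ p ∈ Pset 1 m, μ κ * (M κ).E (dcj h W φ κ p) ≤
        3 ^ (d + 2) * (θ₁ * (Pset 1 m).card) := by
      intro κ
      rw [← Finset.mul_sum]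
      have h4 : ∑ p ∈ Pset 1 m, (M κ).E (dcj h W φ κ p) ≤ θ₁ * (Pset 1 m).card :=
        (Finset.sum_le_sum fun p _ => le_abs_self _).trans (hsum κ φ hφ1)
      have h5 := mul_le_mul_of_nonneg_left h4 (hμ κ).1
      refine le_trans h5 ?_
      exact mul_le_mul_of_nonneg_right (hμ κ).2 (by positivity)
    refine le_trans (Finset.sum_le_sum fun κ _ => h3 κ) ?_
    rw [Finset.sum_const, nsmul_eq_mul, Finset.card_univ, ← hn]
    refine le_of_eq ?_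
    rw [hθ₁]
    field_simp
  nlinarith

end Pool.Agent.H31.MKS
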