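import Pool.Agent.H31.MKS.Defs

/-!
Statements of the modules of the decoupling part of the project GS on `MP_c59857_nt`.
-/

set_option autoImplicit false

open Finset Filter Topology

namespace Pool.Agent.H31.MKS

open Pool.Agent.H91.LF (lz Bdd Mean sqw par)
open Pool.Agent.H24.T2 (Pset box cub)
open Pool.Agent.H31.DP
open Pool.Agent.H31.DPD (sI IC mulc Oc)
open Pool.Agent.H28.GS

/-- [DSM] Decoupling for finitely many means at once. -/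
def K_DSM : Prop :=
  ∃ c₀ : ℝ, 0 < c₀ ∧ ∀ (D : ℕ) (ι : Type) (_ : Fintype ι) (_ : Nonempty ι) (M : ι → Mean D)
    (A : Type) (_ : Fintype A) (x : (Fin D → ℤ) → A) (e : Fin D → ℤ) (R : ℕ) (θ : ℝ) (m₀ : ℕ),
    0 < R → 0 < θ →
    ∃ m, m₀ ≤ m ∧ c₀ * 2 ^ m / m ≤ ((Pset 1 m).card : ℝ) ∧
      ∀ (i : ι) (S : Finset (Fin D)) (g : ℕ → (Fin D → ℤ) → ℝ),
        (∀ p ∈ Pset 1 m, ∀ ω, |g p ω| ≤ 1) →
        (∀ p ∈ Pset 1 m, ∀ ω ω' : Fin D → ℤ,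
          (∀ j : ℕ, j < R * 2 ^ m → x (ω + (j : ℤ) • e) = x (ω' + (j : ℤ) • e)) →
          ∀ k : Fin D → ℤ, (∀ i, 0 ≤ k i ∧ k i < p) → g p (ω + k) = g p (ω' + k)) →
        ∑ p ∈ Pset 1 m,
          |(M i).E (fun ω => (p : ℝ) ^ S.card * (ind (∀ i ∈ S, (p : ℤ) ∣ ω i) * g p ω)) -
            (M i).E (g p)| ≤ θ * (Pset 1 m).card

/-- [MDS] The mean level theorem for the functions of the net. -/
def K_MDS : Prop :=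
  ∃ c₀ : ℝ, 0 < c₀ ∧ ∀ (d l : ℕ) (h : Fin l → ℕ) (W J : ℕ) (M : Ix d J → Mean (d + 2)) (θ : ℝ)
    (m₀ : ℕ), 0 < W → 0 < θ →
    ∃ m, m₀ ≤ m ∧ c₀ * 2 ^ m / m ≤ ((Pset 1 m).card : ℝ) ∧
      ∀ (κ : Ix d J) (φ : ℤ → ℤ → ℝ), (∀ s j, |φ s j| ≤ 1) →
        ∑ p ∈ Pset 1 m, |(M κ).E (dcj h W φ κ p)| ≤ θ * (Pset 1 m).card

/-- [OBS] The boundary of the regions. -/
def K_OBS : Prop :=
  ∀ (d J : ℕ) (κ : Ix d J),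
    (∀ M : ℕ, 0 < M → ((Rg d J M κ).card : ℝ) ≤ (3 * (M : ℝ)) ^ (d + 2)) ∧
    ∀ v : Fin (d + 2) → ℤ, ∃ C : ℝ, ∀ M : ℕ, 0 < M → ∀ (f : (Fin (d + 2) → ℤ) → ℝ) (B : ℝ),
      (∀ ω, |f ω| ≤ B) →
        |∑ ω ∈ Rg d J M κ, f (ω + v) - ∑ ω ∈ Rg d J M κ, f ω| ≤ C * B * (M : ℝ) ^ (d + 1)

/-- [UAS] Asymptotic translation invariance of the finite averages. -/
def K_UAS : Prop :=
  ∀ (d J : ℕ) (κ : Ix d J) (x y : ℕ → ℕ), (∀ j, 0 < x j) →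
    Tendsto (fun j => Real.log ((y j : ℝ) / x j)) atTop atTop →
    ∀ (v : Fin (d + 2) → ℤ) (f : (Fin (d + 2) → ℤ) → ℝ), Bdd f →
      Tendsto (fun j => avR d J κ (x j) (y j) (fun ω => f (ω + v)) - avR d J κ (x j) (y j) f)
        atTop (𝓝 0)

/-- [UMS] The limit means. -/
def K_UMS : Prop :=
  ∀ (d J : ℕ) (x y : ℕ → ℕ), (∀ j, 0 < x j) →
    Tendsto (fun j => Real.log ((y j : ℝ) / x j)) atTop atTop →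
    ∃ (U : Ultrafilter ℕ) (μ : Ix d J → ℝ) (M : Ix d J → Mean (d + 2)), (U : Filter ℕ) ≤ atTop ∧
      (∀ κ, 0 ≤ μ κ ∧ μ κ ≤ 3 ^ (d + 2)) ∧
      ∀ (κ : Ix d J) (f : (Fin (d + 2) → ℤ) → ℝ), Bdd f →
        Tendsto (fun j => avR d J κ (x j) (y j) f) (U : Filter ℕ) (𝓝 (μ κ * (M κ).E f))

/-- [DCS] The finite form of the decoupling, for all the functions of the net. -/
def K_DCS : Prop :=
  ∃ c₀ : ℝ, 0 < c₀ ∧ ∀ (d l : ℕ) (h : Fin l → ℕ) (W J L : ℕ) (θ : ℝ) (m₀ : ℕ), 0 < W → 0 < L →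
    0 < θ → ∃ m₁ K : ℕ, ∀ x y : ℕ, 0 < x → K * x ≤ y →
      ∃ m, m₀ ≤ m ∧ m ≤ m₁ ∧ c₀ * 2 ^ m / m ≤ ((Pset 1 m).card : ℝ) ∧
        ∀ φ : ℤ → ℤ → ℝ, NetF L φ →
          ∑ p ∈ Pset 1 m, ∑ κ : Ix d J, avR d J κ x y (dcj h W φ κ p) ≤ θ * (Pset 1 m).card

/-- [IDS] The sum of the defect over the domain is a sum of squares. -/
def K_IDS : Prop :=
  ∀ (d l : ℕ) (h : Fin l → ℕ) (W J : ℕ) (φ : ℤ → ℤ → ℝ) (p M : ℕ), 0 < p → 0 < M →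
    ∑ κ : Ix d J, ∑ ω ∈ Rg d J M κ, dcj h W φ κ p ω = DDH d (Hs h (st W J M φ) p) p M

end Pool.Agent.H31.MKS
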