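import Pool.Agent.H28.GS.Targets

/-!
Definitions for the decoupling part of the project GS (structure theorem for the correlations of
every order) on `MP_c59857_nt`.
-/

set_option autoImplicit false

open Finset Filter Topology

namespace Pool.Agent.H31.MKS

open Pool.Agent.H91.LF (lz Bdd Mean sqw par)
open Pool.Agent.H24.T2 (Pset box cub)
open Pool.Agent.H31.DP
open Pool.Agent.H31.DPD (sI IC mulc Oc)
open Pool.Agent.H28.GS

/-- The block indices of the vertices of the two cubes. -/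
abbrev Ix (d J : ℕ) : Type := Finset (Fin d) × Fin 2 → Fin (J + 1)

/-- The `ω = (y, y', s)` of the domain, for which the block of the vertex `I` of the first
(second) cube is `κ (I, 0)` (`κ (I, 1)`). -/
noncomputable def Rg (d J M : ℕ) (κ : Ix d J) : Finset (Fin (d + 2) → ℤ) :=
  (Oc d M).filter (fun ω => ∀ I : Finset (Fin d),
    (J : ℤ) * (ω 0 + sI (par ω) I) / (M : ℤ) = ((κ (I, 0) : ℕ) : ℤ) ∧
    (J : ℤ) * (ω 1 + sI (par ω) I) / (M : ℤ) = ((κ (I, 1) : ℕ) : ℤ))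

/-- The function of the net at the point `y` of the block `j`. -/
noncomputable def vt {l : ℕ} (h : Fin l → ℕ) (W : ℕ) (φ : ℤ → ℤ → ℝ) (p : ℕ) (y j : ℤ) : ℝ :=
  (FF h p y - φ (y % (W : ℤ)) j) / 2

/-- The product over the vertices of both cubes. -/
noncomputable def gj {l d J : ℕ} (h : Fin l → ℕ) (W : ℕ) (φ : ℤ → ℤ → ℝ) (κ : Ix d J) (p : ℕ)
    (ω : Fin (d + 2) → ℤ) : ℝ :=
  (∏ I : Finset (Fin d), vt h W φ p (ω 0 + sI (par ω) I) ((κ (I, 0) : ℕ) : ℤ)) *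
    ∏ I : Finset (Fin d), vt h W φ p (ω 1 + sI (par ω) I) ((κ (I, 1) : ℕ) : ℤ)

/-- The decoupling defect on `ω = (y, y', s)`. -/
noncomputable def dcj {l d J : ℕ} (h : Fin l → ℕ) (W : ℕ) (φ : ℤ → ℤ → ℝ) (κ : Ix d J) (p : ℕ)
    (ω : Fin (d + 2) → ℤ) : ℝ :=
  (p : ℝ) ^ d * ind (∀ i : Fin d, (p : ℤ) ∣ par ω i) *
    (bal p (ω 0) * bal p (ω 1) * gj h W φ κ p ω)

/-- The finite averages: logarithmic in `M ∈ [x, y]`, over `Rg d J M κ`. -/
noncomputable def avR (d J : ℕ) (κ : Ix d J) (x y : ℕ) (f : (Fin (d + 2) → ℤ) → ℝ) : ℝ :=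
  (∑ M ∈ Finset.Icc x y, (1 / (M : ℝ)) * ((∑ ω ∈ Rg d J M κ, f ω) / (M : ℝ) ^ (d + 2))) /
    ∑ M ∈ Finset.Icc x y, (1 / (M : ℝ))

end Pool.Agent.H31.MKS
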